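import Mathlib
import Pool.Agent.Helper112.PairSieve
import Pool.Agent.Helper602.MK.J5c
import Pool.Agent.Helper865.AP.A1
import Pool.Agent.Helper865.AP.A2
import Pool.Agent.Helper865.AP.B
import Pool.Agent.Helper865.AP.Cc
import Pool.Agent.Helper865.AP.D
import Pool.Agent.Helper865.AP.E1
import Pool.Agent.Helper865.AP.E2
import Pool.Agent.Helper865.AP.G
import Pool.Agent.Helper865.AP.I1
import Pool.Agent.Helper865.AP.I2
import Pool.Agent.Helper865.AP.I3a
import Pool.Agent.Helper865.AP.I3b
import Pool.Agent.Helper865.AP.I3c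
import Pool.Agent.Helper865.AP.Fin

set_option autoImplicit false

open Filter

namespace Pool.Agent.Results.MP_e86632_nt.BothEnds

/-- The lower asymptotic density `liminf A(n)/n`, where `A(n)` counts the elements of `A` in `[1, n]`. -/
noncomputable def lowerDensity (A : Set ℕ) : ℝ :=
  liminf (fun n : ℕ => ((A ∩ Set.Icc 1 n).ncard : ℝ) / n) atTop

/-- The sumset `A + P` of `A` with the set of primes. -/
def plusPrimes (A : Set ℕ) : Set ℕ := {n | ∃ a ∈ A, ∃ p : ℕ, p.Prime ∧ n = a + p}

/-- `f*(x)`: the infimum of the lower density of `A + P` over all sets `A` of positive integers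
of lower density exactly `x`. -/
noncomputable def fStar (x : ℝ) : ℝ :=
  sInf {d : ℝ | ∃ A : Set ℕ, (∀ a ∈ A, 1 ≤ a) ∧ lowerDensity A = x ∧
    d = lowerDensity (plusPrimes A)}

/-- The order of magnitude of `f*(x)` on all of `(0,1)`, and the double exponential rate at which
`f*(x)` tends to `1` as `x` tends to `1`. -/
theorem result :
    ∃ c C : ℝ, 0 < c ∧ 0 < C ∧
      (∀ x : ℝ, 0 < x → x < 1 →
        c / (1 + Real.log (1 + Real.log (1 / x))) ≤ fStar x ∧
        fStar x ≤ C / (1 + Real.log (1 + Real.log (1 / x)))) ∧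
      (∀ x : ℝ, 1 / 2 ≤ x → x < 1 →
        Real.exp (-Real.exp (C / (1 - x))) ≤ 1 - fStar x ∧
        1 - fStar x ≤ Real.exp (-(c * Real.exp (c / (1 - x))))) := by
  have hmom := Pool.Agent.Helper865.AP.N_B.T_moment
  have hpairsT := Pool.Agent.Helper865.AP.N_Cc.pairs_T hmom
  have hclass := Pool.Agent.Helper865.AP.N_A1.class_count Pool.Agent.Helper112.E456.sieve_two
  have hpair := Pool.Agent.Helper865.AP.N_A2.pair_count hclass
    Pool.Agent.Helper602.MK.N_J5c.prod_primes_le
  have hkey := Pool.Agent.Helper865.AP.N_D.key hpair hpairsT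
  exact Pool.Agent.Helper865.AP.final
    (fun B β x hβ hx hxβ hB => Pool.Agent.Helper865.AP.N_E1.exists_subset_density B β x hβ hx hxβ hB)
    (fun m hm R hR => Pool.Agent.Helper865.AP.N_E2.periodic_density m hm R hR)
    Pool.Agent.Helper865.AP.N_G.omega_le_totient
    Pool.Agent.Helper865.AP.N_G.totient_primorial
    (Pool.Agent.Helper865.AP.N_I1.near_zero_lower hkey)
    (Pool.Agent.Helper865.AP.N_I2.near_one_upper hkey)
    (fun c hc => Pool.Agent.Helper865.AP.N_I3a.invert_bound c hc)
    Pool.Agent.Helper865.AP.N_I3b.small_bound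
    Pool.Agent.Helper865.AP.N_I3c.modulus_bound

end Pool.Agent.Results.MP_e86632_nt.BothEnds
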